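import Pool.Agent.Helper95.PN.Stmts

/-! Row PK: packing of separated points. -/

set_option autoImplicit false

namespace Pool.Agent.Helper95.PW

open MeasureTheory Filter

theorem pk_tel (t L : ℕ) : 1 / ((t : ℝ) + 1) ≤
    (∑ k ∈ Finset.range L, if t ≤ k then 1 / (((k : ℝ) + 1) * (k + 2)) else 0) +
      1 / ((L : ℝ) + 1) := by
  induction L with
  | zero =>
    simp only [Finset.range_zero, Finset.sum_empty, zero_add, Nat.cast_zero]
    have h0 : (0 : ℝ) ≤ t := Nat.cast_nonneg t
    exact one_div_le_one_div_of_le (by norm_num) (by linarith)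
  | succ L ih =>
    rw [Finset.sum_range_succ]
    by_cases h : t ≤ L
    · rw [if_pos h]
      have e : 1 / ((L : ℝ) + 1) =
          1 / (((L : ℝ) + 1) * (L + 2)) + 1 / (((L + 1 : ℕ) : ℝ) + 1) := by
        push_cast
        field_simp
        ring
      linarith
    · rw [if_neg h]
      have h2 : ((L + 1 : ℕ) : ℝ) ≤ t := by exact_mod_cast (by omega : L + 1 ≤ t)
      have h3 : 1 / ((t : ℝ) + 1) ≤ 1 / (((L + 1 : ℕ) : ℝ) + 1) :=
        one_div_le_one_div_of_le (by positivity) (by linarith)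
      have h4 : 0 ≤ ∑ k ∈ Finset.range L,
          (if t ≤ k then 1 / (((k : ℝ) + 1) * (k + 2)) else 0) :=
        Finset.sum_nonneg fun k _ => by split_ifs <;> positivity
      linarith

theorem pk_coord (v : R3) (i : Fin 3) : |v i| ≤ nr v := by
  unfold nr
  apply Real.abs_le_sqrt
  have h0 := sq_nonneg (v 0)
  have h1 := sq_nonneg (v 1)
  have h2 := sq_nonneg (v 2)
  fin_cases i
  · change v 0 ^ 2 ≤ _
    linarith
  · change v 1 ^ 2 ≤ _
    linarith
  · change v 2 ^ 2 ≤ _
    linarith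

theorem pk_lt (v : R3) (d : ℝ) (hd : 0 < d) (h : ∀ i, |v i| < 2 * d) : nr v < 4 * d := by
  unfold nr
  rw [Real.sqrt_lt' (by positivity)]
  have hh : ∀ i, v i ^ 2 < (2 * d) ^ 2 := fun i => by
    apply sq_lt_sq.mpr
    rw [abs_of_pos (by positivity : (0 : ℝ) < 2 * d)]
    exact h i
  have h0 := hh 0
  have h1 := hh 1
  have h2 := hh 2
  nlinarith [sq_nonneg d]

theorem pk_count {M : ℕ} (X : Fin M → R3) (d : ℝ) (y : R3) (hd : 0 < d) (hs : Sep X d) (k : ℕ)
    (S : Finset (Fin M)) (hS : ∀ j ∈ S, nr (y - X j) < ((k : ℝ) + 1) * d) :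
    (S.card : ℝ) ≤ 125 * ((k : ℝ) + 1) ^ 3 := by
  have h1 : S.card ≤ (Fintype.piFinset
      (fun _ : Fin 3 => Finset.Icc (-((k : ℤ) + 2)) ((k : ℤ) + 2))).card := by
    apply Finset.card_le_card_of_injOn (fun j (i : Fin 3) => ⌊(y i - X j i) / (2 * d)⌋)
    · intro j hj
      rw [Finset.mem_coe, Fintype.mem_piFinset]
      intro i
      have hc : |y i - X j i| < ((k : ℝ) + 1) * d :=
        lt_of_le_of_lt (pk_coord (y - X j) i) (hS j hj)
      rw [abs_lt] at hc
      have hk : (0 : ℝ) ≤ k := Nat.cast_nonneg k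
      rw [Finset.mem_Icc]
      constructor
      · rw [Int.le_floor]
        push_cast
        rw [le_div_iff₀ (by positivity)]
        nlinarith [mul_nonneg hk hd.le]
      · have : (⌊(y i - X j i) / (2 * d)⌋ : ℤ) < (k : ℤ) + 2 := by
          rw [Int.floor_lt]
          push_cast
          rw [div_lt_iff₀ (by positivity)]
          nlinarith [mul_nonneg hk hd.le]
        exact this.le
    · intro j _ j' _ h
      by_contra hne
      have h5 := hs j j' hne
      have h6 : nr (X j - X j') < 4 * d := by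
        apply pk_lt _ _ hd
        intro i
        have h7 := Int.abs_sub_lt_one_of_floor_eq_floor (congrFun h i)
        have e : (y i - X j i) / (2 * d) - (y i - X j' i) / (2 * d) =
            -((X j i - X j' i) / (2 * d)) := by ring
        rw [e, abs_neg, abs_div, abs_of_pos (by positivity : (0 : ℝ) < 2 * d),
          div_lt_one (by positivity)] at h7
        exact h7
      linarith
  have h2 : (Fintype.piFinset
      (fun _ : Fin 3 => Finset.Icc (-((k : ℤ) + 2)) ((k : ℤ) + 2))).card = (2 * k + 5) ^ 3 := by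
    rw [Fintype.card_piFinset, Finset.prod_const, Int.card_Icc, Finset.card_univ, Fintype.card_fin]
    congr 1
    omega
  rw [h2] at h1
  have h3 : (S.card : ℝ) ≤ (2 * (k : ℝ) + 5) ^ 3 := by exact_mod_cast h1
  have hk : (0 : ℝ) ≤ k := Nat.cast_nonneg k
  calc (S.card : ℝ) ≤ (2 * (k : ℝ) + 5) ^ 3 := h3
    _ ≤ (5 * ((k : ℝ) + 1)) ^ 3 := pow_le_pow_left₀ (by positivity) (by linarith) 3
    _ = 125 * ((k : ℝ) + 1) ^ 3 := by ring

theorem st_PK : ST_PK := by
  refine ⟨378, by norm_num, ?_⟩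
  intro M X d y hd hs
  obtain ⟨w, hw⟩ : ∃ w : ℝ, w = (M : ℝ) ^ (1 / 3 : ℝ) := ⟨_, rfl⟩
  have hM : (0 : ℝ) ≤ M := Nat.cast_nonneg M
  have hw0 : 0 ≤ w := by rw [hw]; exact Real.rpow_nonneg hM _
  have hw3 : w ^ 3 = M := by
    rw [hw, ← Real.rpow_natCast, ← Real.rpow_mul hM]
    norm_num
  have hw2 : (M : ℝ) ^ (2 / 3 : ℝ) = w ^ 2 := by
    rw [hw, ← Real.rpow_natCast, ← Real.rpow_mul hM]
    norm_num
  obtain ⟨L, hL⟩ : ∃ L : ℕ, L = ⌊w⌋₊ := ⟨_, rfl⟩
  have hL1 : (L : ℝ) ≤ w := by rw [hL]; exact Nat.floor_le hw0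
  have hL2 : w < (L : ℝ) + 1 := by rw [hL]; exact Nat.lt_floor_add_one w
  have hL0 : (0 : ℝ) ≤ L := Nat.cast_nonneg L
  have hnr : ∀ v : R3, 0 ≤ nr v := fun v => Real.sqrt_nonneg _
  have s1 : far1 X d y ≤ ∑ j, 3 / d * (1 / ((⌊nr (y - X j) / d⌋₊ : ℝ) + 1)) := by
    unfold far1
    refine Finset.sum_le_sum fun j _ => ?_
    split_ifs with h
    · have hp : 0 < nr (y - X j) := by linarith
      have hf : (⌊nr (y - X j) / d⌋₊ : ℝ) ≤ nr (y - X j) / d :=
        Nat.floor_le (div_nonneg hp.le hd.le)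
      have h1 : (⌊nr (y - X j) / d⌋₊ : ℝ) + 1 ≤ 3 * (nr (y - X j) / d) := by
        have : 1 / 2 ≤ nr (y - X j) / d := by
          rw [le_div_iff₀ hd]; linarith
        linarith
      have h2 : 1 / (3 * (nr (y - X j) / d)) ≤ 1 / ((⌊nr (y - X j) / d⌋₊ : ℝ) + 1) :=
        one_div_le_one_div_of_le (by positivity) h1
      calc 1 / nr (y - X j) = 3 / d * (1 / (3 * (nr (y - X j) / d))) := by field_simp
        _ ≤ _ := mul_le_mul_of_nonneg_left h2 (by positivity)
    · positivity
  have s2 : ∑ j, (1 / ((⌊nr (y - X j) / d⌋₊ : ℝ) + 1)) ≤ 126 * w ^ 2 := by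
    calc ∑ j, (1 / ((⌊nr (y - X j) / d⌋₊ : ℝ) + 1))
        ≤ ∑ j, ((∑ k ∈ Finset.range L, if ⌊nr (y - X j) / d⌋₊ ≤ k then
            1 / (((k : ℝ) + 1) * (k + 2)) else 0) + 1 / ((L : ℝ) + 1)) :=
          Finset.sum_le_sum fun j _ => pk_tel _ L
      _ = (∑ k ∈ Finset.range L, ∑ j, if ⌊nr (y - X j) / d⌋₊ ≤ k then
            1 / (((k : ℝ) + 1) * (k + 2)) else 0) + M * (1 / ((L : ℝ) + 1)) := by
          rw [Finset.sum_add_distrib, Finset.sum_comm, Finset.sum_const, Finset.card_univ,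
            Fintype.card_fin, nsmul_eq_mul]
      _ ≤ (∑ k ∈ Finset.range L, 125 * w) + w ^ 2 := by
          refine add_le_add (Finset.sum_le_sum fun k hk => ?_) ?_
          · rw [← Finset.sum_filter, Finset.sum_const, nsmul_eq_mul]
            have hc := pk_count X d y hd hs k
              (Finset.univ.filter fun j => ⌊nr (y - X j) / d⌋₊ ≤ k) (by
                intro j hj
                have hj2 := (Finset.mem_filter.mp hj).2
                have h1 := Nat.lt_floor_add_one (nr (y - X j) / d)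
                have h2 : (⌊nr (y - X j) / d⌋₊ : ℝ) ≤ k := by exact_mod_cast hj2
                rw [← div_lt_iff₀ hd]
                linarith)
            have hk1 : (k : ℝ) + 1 ≤ w := by
              have : ((k + 1 : ℕ) : ℝ) ≤ L := by
                exact_mod_cast (Finset.mem_range.mp hk)
              push_cast at this
              linarith
            have hk0 : (0 : ℝ) ≤ k := Nat.cast_nonneg k
            calc ((Finset.univ.filter fun j => ⌊nr (y - X j) / d⌋₊ ≤ k).card : ℝ) *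
                  (1 / (((k : ℝ) + 1) * (k + 2)))
                ≤ 125 * ((k : ℝ) + 1) ^ 3 * (1 / (((k : ℝ) + 1) * (k + 2))) :=
                  mul_le_mul_of_nonneg_right hc (by positivity)
              _ = 125 * (((k : ℝ) + 1) * (((k : ℝ) + 1) / (k + 2))) := by
                  field_simp
              _ ≤ 125 * (((k : ℝ) + 1) * 1) := by
                  have : ((k : ℝ) + 1) / (k + 2) ≤ 1 := by
                    rw [div_le_one (by positivity)]; linarith
                  have := mul_le_mul_of_nonneg_left this (by positivity : (0 : ℝ) ≤ (k : ℝ) + 1)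
                  linarith
              _ ≤ 125 * w := by linarith
          · rw [mul_one_div, div_le_iff₀ (by positivity), ← hw3]
            nlinarith [sq_nonneg w]
      _ ≤ 126 * w ^ 2 := by
          rw [Finset.sum_const, Finset.card_range, nsmul_eq_mul]
          nlinarith [mul_le_mul_of_nonneg_right hL1 hw0]
  rw [hw2]
  calc far1 X d y ≤ ∑ j, 3 / d * (1 / ((⌊nr (y - X j) / d⌋₊ : ℝ) + 1)) := s1
    _ = 3 / d * ∑ j, (1 / ((⌊nr (y - X j) / d⌋₊ : ℝ) + 1)) := by rw [Finset.mul_sum]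
    _ ≤ 3 / d * (126 * w ^ 2) := mul_le_mul_of_nonneg_left s2 (by positivity)
    _ = 378 * w ^ 2 / d := by ring

end Pool.Agent.Helper95.PW
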